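import Pool.Agent.MP_f4a04c_gt.H1.Core

/-!
A copy of the body determines its centre and its oriented axis, with a modulus of continuity.
-/

namespace Pool.Agent.MP_f4a04c_gt.H64

open scoped RealInnerProductSpace
open Pool.Agent.MP_f4a04c_gt.H1 Filter Topology

lemma S_norm {p : E} (hp : p ∈ S) : ‖p‖ ≤ 1 := by
  simpa using S_sub (C := Metric.closedBall 0 1) Metric.isClosed_closedBall (convex_closedBall _ _)
    (fun p hp => by simpa using hp.1) hp

lemma S_half {u q : E} {b : ℝ} (hq : q ∈ S) (h : b < ⟪u, q⟫) : ∃ p ∈ P, b < ⟪u, p⟫ := by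
  by_contra hc
  push Not at hc
  exact absurd (S_sub (C := {y | ⟪u, y⟫ ≤ b}) (isClosed_le (by fun_prop) continuous_const)
    (convex_halfSpace_le (innerₛₗ ℝ u).isLinear b) hc hq) (not_le.2 h)

lemma c_small {ε : ℝ} (h : 0 < ε) : ∃ k, c k < ε := by
  obtain ⟨k, hk⟩ := exists_pow_lt_of_lt_one h (show (1 : ℝ) / 16 < 1 by norm_num)
  have h4 : c k = (1 / 16) ^ k / 32 := rfl
  exact ⟨k, by linarith [c_pos k]⟩

lemma pole {r : ℝ} (h0 : 0 < r) (h1 : r ≤ 1 / 32) : ∃ p : E, ‖p‖ ≤ 1 ∧ ‖p - e0‖ = r := by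
  refine ⟨(1 - r) • e0, ?_, ?_⟩
  · rw [norm_smul, norm_e0, Real.norm_of_nonneg (by linarith)]; linarith
  · rw [sub_smul, one_smul, sub_sub_cancel_left, norm_neg, norm_smul, norm_e0,
      Real.norm_of_nonneg h0.le, mul_one]

lemma e0_mem : e0 ∈ S := by
  refine closure_mono (subset_convexHull ℝ P) (Metric.mem_closure_iff.2 fun ε hε => ?_)
  obtain ⟨k, hk⟩ := c_small hε
  obtain ⟨p, h1, h2⟩ := pole (c_pos (2 * k)) (c_le _)
  refine ⟨p, ⟨h1, Or.inr (Or.inr (Or.inl ⟨k, h2⟩))⟩, ?_⟩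
  rw [dist_comm, dist_eq_norm, h2]
  exact (c_anti (by omega)).trans_lt hk

lemma neg_e0_mem : -e0 ∈ S := by
  refine closure_mono (subset_convexHull ℝ P) (Metric.mem_closure_iff.2 fun ε hε => ?_)
  obtain ⟨k, hk⟩ := c_small hε
  obtain ⟨p, h1, h2⟩ := pole (c_pos (2 * k + 1)) (c_le _)
  have h3 : ‖-p + e0‖ = c (2 * k + 1) := by rw [← h2, neg_add_eq_sub, norm_sub_rev]
  refine ⟨-p, ⟨by rwa [norm_neg], Or.inr (Or.inr (Or.inr ⟨k, h3⟩))⟩, ?_⟩
  rw [dist_comm, dist_eq_norm, sub_neg_eq_add, h3]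
  exact (c_anti (by omega)).trans_lt hk

lemma g3_mem : g3 ∈ S := P_sub_S ⟨norm_g3.le, Or.inr (Or.inl (by simp [g3]; norm_num))⟩

lemma c_of_gap {i j : ℕ} (h : i ≠ j) {D : ℝ} (h1 : |c i - c j| ≤ D) : c i ≤ 2 * D := by
  have p1 := c_pos i
  have p2 := c_pos j
  rcases lt_or_gt_of_ne h with a | a
  · linarith [c_lt a, le_abs_self (c i - c j)]
  · linarith [c_lt a, neg_abs_le (c i - c j)]

/-- Nearly antipodal points of the generating set are near the poles. -/
lemma P_pole {p q : E} (hp : p ∈ P) (hq : q ∈ P) (h : ‖p + q‖ < 1 / 20) :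
    ‖p - e0‖ ≤ 2 * ‖p + q‖ ∨ ‖p + e0‖ ≤ 2 * ‖p + q‖ := by
  have h0 := abs_coord_le (p + q) 0
  have h1 : (p + q) 0 = p 0 + q 0 := by simp
  rw [h1] at h0
  have h2 := le_abs_self (p 0 + q 0)
  have h3 := neg_abs_le (p 0 + q 0)
  obtain ⟨-, hp⟩ := hp
  obtain ⟨-, hq⟩ := hq
  rcases hp with hp | hp | ⟨i, hp⟩ | ⟨i, hp⟩ <;> rcases hq with hq | hq | ⟨j, hq⟩ | ⟨j, hq⟩
  · linarith [hp.2, hq.2]
  · linarith [hp.1, hq.1]
  · linarith [hp.1, coord_of_sub hq, c_le (2 * j)]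
  · linarith [hp.2, coord_of_add hq, c_le (2 * j + 1)]
  · linarith [hp.1, hq.1]
  · linarith [hp.1, hq.1]
  · linarith [hp.1, coord_of_sub hq, c_le (2 * j)]
  · linarith [hp.2, coord_of_add hq, c_le (2 * j + 1)]
  · linarith [hq.1, coord_of_sub hp, c_le (2 * i)]
  · linarith [hq.1, coord_of_sub hp, c_le (2 * i)]
  · linarith [coord_of_sub hq, c_le (2 * j), coord_of_sub hp, c_le (2 * i)]
  · exact Or.inl (hp ▸ c_of_gap (by omega) (P_sum_aux hp hq).1)
  · linarith [hq.2, coord_of_add hp, c_le (2 * i + 1)]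
  · linarith [hq.2, coord_of_add hp, c_le (2 * i + 1)]
  · refine Or.inr (hp ▸ c_of_gap (j := 2 * j) (by omega) ?_)
    rw [abs_sub_comm, add_comm p q]
    exact (P_sum_aux hq hp).1
  · linarith [coord_of_add hq, c_le (2 * j + 1), coord_of_add hp, c_le (2 * i + 1)]

/-- Quantitative rigidity. -/
lemma rigid {r : ℝ} (h0 : 0 < r) (h1 : r ≤ 1 / 100) (R : E ≃ₗᵢ[ℝ] E) (y : E)
    (h : ∀ p ∈ S, ∃ q ∈ S, ‖R p + y - q‖ ≤ r ^ 4 / 100) : ‖y‖ ≤ r ∧ ‖R e0 - e0‖ ≤ 5 * r := by
  have r2 : r ^ 2 ≤ 1 / 10000 := by nlinarith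
  have r4 : r ^ 4 ≤ r ^ 2 / 10000 := by nlinarith [sq_nonneg r]
  have r40 : 0 < r ^ 4 := by positivity
  have hb : ∀ p ∈ S, ‖R p + y‖ ≤ 1 + r ^ 4 / 100 := fun p hp => by
    obtain ⟨q, hq, h2⟩ := h p hp
    have := norm_add_le (R p + y - q) q
    rw [sub_add_cancel] at this
    linarith [S_norm hq]
  have hy : ‖y‖ ≤ r ^ 2 / 4 := by
    have a := pow_le_pow_left₀ (norm_nonneg _) (hb _ e0_mem) 2
    have b := pow_le_pow_left₀ (norm_nonneg _) (hb _ neg_e0_mem) 2
    rw [norm_add_sq_real, R.norm_map] at a b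
    rw [map_neg, inner_neg_left, norm_neg] at b
    rw [norm_e0] at a b
    refine le_of_sq_le_sq ?_ (by positivity)
    nlinarith
  have hn : ∀ p ∈ S, ‖p‖ = 1 → ∃ q ∈ P, ‖q - R p‖ < r := fun p hp hp1 => by
    obtain ⟨q, hq, h2⟩ := h p hp
    have hu : ‖R p‖ = 1 := by rw [R.norm_map, hp1]
    have h3 : ‖R p - q‖ ≤ r ^ 4 / 100 + r ^ 2 / 4 := by
      have := norm_sub_le (R p + y - q) y
      rw [show R p + y - q - y = R p - q by abel] at this
      linarith
    have h4 := real_inner_le_norm (R p) (R p - q)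
    rw [inner_sub_right, real_inner_self_eq_norm_sq, hu] at h4
    obtain ⟨q', hq', h5⟩ := S_half (u := R p) (b := 1 - r ^ 2 / 2) hq (by nlinarith)
    exact ⟨q', hq', near_of_inner h0 hu hq'.1 h5⟩
  refine ⟨by nlinarith, ?_⟩
  obtain ⟨p, hp, a1⟩ := hn _ e0_mem norm_e0
  obtain ⟨q, hq, a2⟩ := hn _ neg_e0_mem (by rw [norm_neg, norm_e0])
  obtain ⟨m, hm, a3⟩ := hn _ g3_mem norm_g3
  have a4 : ‖p + q‖ < 2 * r := by
    have := norm_add_le (p - R e0) (q - R (-e0))
    rw [map_neg, show p - R e0 + (q - -R e0) = p + q by abel] at this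
    rw [map_neg] at a2
    linarith
  rcases P_pole hp hq (by linarith) with a5 | a5
  · have := norm_sub_le (p - e0) (p - R e0)
    rw [show p - e0 - (p - R e0) = R e0 - e0 by abel] at this
    linarith
  · exfalso
    have b1 := norm_sub_le (p + e0) (p - R e0)
    rw [show p + e0 - (p - R e0) = R e0 + e0 by abel] at b1
    have b2 := abs_real_inner_le_norm (R g3) (R e0 + e0)
    rw [inner_add_right, R.inner_map_map, R.norm_map, norm_g3, inner_coord, inner_coord] at b2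
    have b3 := abs_coord_le (m - R g3) 0
    have b4 : (m - R g3) 0 = m 0 - R g3 0 := by simp
    simp only [g3, e0] at b2
    simp at b2
    change |4 / 5 + R g3 0| ≤ ‖R e0 + e0‖ at b2
    rw [b4] at b3
    have b5 := abs_le.1 b2
    have b6 := abs_le.1 b3
    rcases hm.2 with hm | hm | ⟨i, hm⟩ | ⟨i, hm⟩
    · linarith [hm.1]
    · linarith [hm.1]
    · linarith [coord_of_sub hm, c_le (2 * i)]
    · linarith [coord_of_add hm, c_le (2 * i + 1)]

/-- The image of the body under a rigid motion. -/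
def cp (R : E ≃ₗᵢ[ℝ] E) (x : E) : Set E := (fun p => R p + x) '' S

lemma close {r : ℝ} (h0 : 0 < r) (h1 : r ≤ 1 / 100) {R R' : E ≃ₗᵢ[ℝ] E} {x x' : E}
    (h : Metric.hausdorffDist (cp R x) (cp R' x') < r ^ 4 / 100) :
    ‖x - x'‖ ≤ r ∧ ‖R e0 - R' e0‖ ≤ 5 * r := by
  have hb : ∀ (R : E ≃ₗᵢ[ℝ] E) (x : E), Bornology.IsBounded (cp R x) := fun R x =>
    (S_compact.image (by fun_prop)).isBounded
  have hf := Metric.hausdorffEDist_ne_top_of_nonempty_of_bounded
    (Set.Nonempty.image (fun p => R p + x) ⟨_, e0_mem⟩)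
    (Set.Nonempty.image (fun p => R' p + x') ⟨_, e0_mem⟩) (hb R x) (hb R' x')
  have := rigid h0 h1 (R.trans R'.symm) (R'.symm (x - x')) fun p hp => by
    obtain ⟨_, ⟨q, hq, rfl⟩, h2⟩ :=
      Metric.exists_dist_lt_of_hausdorffDist_lt (s := cp R x) ⟨p, hp, rfl⟩ h hf
    refine ⟨q, hq, ?_⟩
    rw [← R'.norm_map]
    simp only [map_sub, map_add, LinearIsometryEquiv.trans_apply,
      LinearIsometryEquiv.apply_symm_apply]
    rw [dist_eq_norm] at h2
    rw [show R p + (x - x') - R' q = R p + x - (R' q + x') by abel]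
    exact h2.le
  rw [R'.symm.norm_map, ← R'.norm_map (_ - e0)] at this
  simpa using this

lemma axis_eq {R R' : E ≃ₗᵢ[ℝ] E} {x x' : E} (h : cp R x = cp R' x') : R e0 = R' e0 := by
  refine eq_of_norm_sub_le_zero (le_of_forall_pos_le_add fun ε hε => ?_)
  have := (close (r := min (ε / 5) (1 / 100)) (by positivity) (min_le_right _ _)
    (R := R) (R' := R') (x := x) (x' := x')
    (by rw [h, Metric.hausdorffDist_self_zero]; positivity)).2
  linarith [min_le_left (ε / 5) (1 / 100)]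

/-- Along a family of copies in the container that is continuous for the Hausdorff distance the
axis cannot leave the first coordinate direction. -/
lemma trapped (R : unitInterval → E ≃ₗᵢ[ℝ] E) (x : unitInterval → E)
    (hK : ∀ t, cp (R t) (x t) ⊆ K) (h0 : R 0 e0 = e0)
    (hc : ∀ t, Tendsto (fun u => Metric.hausdorffDist (cp (R u) (x u)) (cp (R t) (x t))) (𝓝 t)
      (𝓝 0)) : R 1 e0 = e0 := by
  have key : ∀ t, ∀ ε > 0, ∀ᶠ u in 𝓝 t, dist (x u) (x t) < ε ∧ dist (R u e0) (R t e0) < ε :=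
    fun t ε hε => by
      have hr : 0 < min (ε / 6) (1 / 100) := by positivity
      filter_upwards [(hc t).eventually (gt_mem_nhds
        (show 0 < min (ε / 6) (1 / 100) ^ 4 / 100 by positivity))] with u hu
      have := close hr (min_le_right _ _) hu
      rw [dist_eq_norm, dist_eq_norm]
      constructor <;> linarith [this.1, this.2, min_le_left (ε / 6) (1 / 100)]
  have hx : Continuous x := continuous_iff_continuousAt.2 fun t =>
    Metric.tendsto_nhds.2 fun ε hε => (key t ε hε).mono fun _ h => h.1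
  have hw : Continuous fun t => R t e0 := continuous_iff_continuousAt.2 fun t =>
    Metric.tendsto_nhds.2 fun ε hε => (key t ε hε).mono fun _ h => h.2
  let π : ℝ → unitInterval := Set.projIcc 0 1 zero_le_one
  have hπ : Continuous π := continuous_projIcc
  have π0 : π 0 = 0 := Set.projIcc_left _
  have π1 : π 1 = 1 := Set.projIcc_right _
  have := no_path (fun t => R (π t) e0) (fun t => x (π t) 2) (hw.comp hπ) (by fun_prop)
    (by show R (π 0) e0 = e0; rw [π0, h0])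
    (fun t k h => force_even (R (π t)) (fun p hp => hK _ ⟨p, P_sub_S hp, rfl⟩) h)
    (fun t k h => force_odd (R (π t)) (fun p hp => hK _ ⟨p, P_sub_S hp, rfl⟩) h) 1
  rwa [π1] at this

end Pool.Agent.MP_f4a04c_gt.H64
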